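import Mathlib
import Pool.Agent.Lib.H16RA.Main
import Pool.Agent.Lib.H16RA.Final
import Pool.Agent.Lib.H16RA.Gam5

set_option autoImplicit false

/-!
# The Riesz equilibrium measure of an annulus, for all `d ≥ 1` and `d - 2 < s < d`

With `α = d - s`, `κ = r / R`: the density is an explicit convergent series whose coefficients are built from
quotients of Gamma functions and powers of `κ`; the total mass, hence the energy, is explicit too.
-/

namespace Pool.Agent.Results.MP_619363_an.AnnulusAll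

open MeasureTheory Set Pool.Agent.Lib.H16RA
open scoped ENNReal Real

/-- **The equilibrium measure of the annulus `{r ≤ |x| ≤ R}` in `ℝ^d` for the Riesz energy `I_s`,
`d - 2 < s < d`.** -/
theorem result (d : ℕ) (hd : 1 ≤ d) (s r R : ℝ) (hs : (d : ℝ) - 2 < s) (hs' : s < d)
    (hr : 0 < r) (hrR : r < R) :
    -- the coefficients: `A_m = ∑_l gcoef m l` (Gamma quotients), `V_n` = first column of the `n`-th power of
    -- the Hankel matrix `(A_{j+m})`; all series converge, with geometric rate `q`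
    (r / R) ^ (((d : ℝ) - s) / 2) * Real.sin (π * (d - s) / 2) < 1 ∧
    (∀ m : ℕ, Summable (gcoef d s (r / R) m)) ∧
    (∀ n j : ℕ, Summable fun m => hank d s (r / R) (j + m) * vec d s (r / R) n m) ∧
    (∀ n j : ℕ, 0 ≤ vec d s (r / R) n j ∧ vec d s (r / R) n j ≤
      ((r / R) ^ (((d : ℝ) - s) / 2) * Real.sin (π * (d - s) / 2)) ^ n * (r / R) ^ j) ∧
    -- integral form: `∑_j V_n(j) x^j = (T^n 1)(x)`
    (∀ n : ℕ, ∀ x : ℝ, 0 ≤ x → r / R * x < 1 →
      HasSum (fun j => vec d s (r / R) n j * x ^ j) (rit d s (r / R) n x)) ∧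
    -- the total mass
    0 < total d s r R ∧
    HasSum (fun p : ℕ × ℕ => π ^ ((d : ℝ) / 2) * R ^ d / Real.Gamma ((d : ℝ) / 2) * (R / r) ^ p.2 *
      (vec d s (r / R) (2 * p.1) p.2 * incBeta (r / R) (((d : ℝ) - s) / 2) ((d : ℝ) / 2 + p.2) +
        (r / R) ^ (s / 2) * vec d s (r / R) (2 * p.1 + 1) p.2 *
          incBeta (r / R) (((d : ℝ) - s) / 2) (((d : ℝ) - s) / 2 + p.2))) (total d s r R) ∧
    -- the equilibrium measure, uniqueness, energy
    IsEquilibrium s (annulus d r R) (mu d s r R) ∧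
    (∀ ν : Measure (EuclideanSpace ℝ (Fin d)),
      IsEquilibrium s (annulus d r R) ν → ν = mu d s r R) ∧
    (s ≠ 0 → rieszEnergy s (mu d s r R) =
      ((R ^ ((d : ℝ) - s) * π ^ ((d : ℝ) / 2 + 1) /
        (s * Real.Gamma ((d : ℝ) / 2) * Real.sin (π * (d - s) / 2) * total d s r R) : ℝ) : EReal)) := by
  have : NeZero d := ⟨by omega⟩
  have hR : 0 < R := hr.trans hrR
  have hκ : 0 < r / R := div_pos hr hR
  have hκ1 : r / R < 1 := (div_lt_one hR).mpr hrR
  have h0 : 0 < (d : ℝ) - s := by linarith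
  have h2 : (d : ℝ) - s < 2 := by linarith
  have he := equilibrium d hs hs' hr hrR
  rw [mu_eq d hs hs' hr hrR, total_eq d hs hs' hr hrR]
  exact ⟨qq_lt_one h0 h2 hκ hκ1, fun m => (acoef_hasSum d hs hs' hκ hκ1 m).summable,
    vec_summable d hs hs' hκ hκ1,
    fun n j => ⟨vec_nonneg d hs hs' hκ hκ1 n j, vec_le d hs hs' hκ hκ1 n j⟩,
    fun n x hx0 hx => vec_hasSum d hs hs' hκ hκ1 n hx0 hx, (mass_eq d hs hs' hr hrR).1,
    mass_series d hs hs' hr hrR, he.1, he.2, fun hs0 => energy_value d hs hs' hr hrR hs0⟩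

end Pool.Agent.Results.MP_619363_an.AnnulusAll
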