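import Mathlib
import Pool.Agent.Lib.RieszAnnulus.Defs
import Pool.Agent.Lib.RieszAnnulus.Potential
import Pool.Agent.Lib.RieszAnnulus.Energy2

set_option autoImplicit false

/-!
# The Riesz equilibrium measure of the annulus for `d = 3`, `s = 2`
-/

namespace Pool.Agent.Results.MP_619363_an.AnnulusDimThree

open MeasureTheory Set Filter Topology Pool.Agent.Lib.RieszAnnulus
open scoped ENNReal Real

lemma rieszKernel_two (z : E3) : rieszKernel 2 z = 2⁻¹ * (ENNReal.ofReal (‖z‖ ^ 2))⁻¹ := by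
  unfold rieszKernel
  rw [ENNReal.mul_inv (Or.inl (by simp)) (Or.inl (by simp))]
  congr 1
  · simp
  · congr 1
    rw [← ofReal_norm, ENNReal.ofReal_rpow_of_nonneg (norm_nonneg _) (by norm_num)]
    congr 1
    exact Real.rpow_natCast _ 2

lemma energy_eq (μ : Measure E3) : rieszEnergy 2 μ = 2⁻¹ * BB μ μ := by
  unfold rieszEnergy BB
  simp_rw [rieszKernel_two]
  have h1 : ∀ x : E3, ∫⁻ y, 2⁻¹ * (ENNReal.ofReal (‖x - y‖ ^ 2))⁻¹ ∂μ =
      2⁻¹ * ∫⁻ y, (ENNReal.ofReal (‖x - y‖ ^ 2))⁻¹ ∂μ := by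
    intro x
    rw [lintegral_const_mul]
    fun_prop
  simp_rw [h1]
  rw [lintegral_const_mul']
  simp

section
variable {r R : ℝ}

lemma dens_meas : Measurable (dens r R) := by
  have : dens r R = fun x => prof r R ‖x‖ := funext fun x => dens_eq x
  rw [this]
  exact prof_meas.comp measurable_norm

lemma muStar_prob (hr : 0 < r) (hrR : r < R) : IsProbabilityMeasure (muStar r R) := by
  constructor
  unfold muStar
  rw [withDensity_apply _ MeasurableSet.univ, Measure.restrict_univ]
  exact mass_one hr hrR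

lemma annulus_meas : MeasurableSet (annulus 3 r R) :=
  (measurableSet_le measurable_const measurable_norm).inter
    (measurableSet_le measurable_norm measurable_const)

lemma muStar_carried : muStar r R (annulus 3 r R)ᶜ = 0 := by
  unfold muStar
  rw [withDensity_apply _ annulus_meas.compl, lintegral_eq_zero_iff dens_meas.ennreal_ofReal]
  filter_upwards [ae_restrict_mem annulus_meas.compl] with x hx
  have : x ∉ {x : E3 | r < ‖x‖ ∧ ‖x‖ < R} := fun h => hx ⟨h.1.le, h.2.le⟩
  unfold dens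
  rw [indicator_of_notMem this]
  simp

lemma potential_muStar (hr : 0 < r) (hrR : r < R) {x : E3} (hx : x ∈ annulus 3 r R) :
    ∫⁻ y, (ENNReal.ofReal (‖x - y‖ ^ 2))⁻¹ ∂(muStar r R) =
      ENNReal.ofReal (2 / (R ^ 2 + r ^ 2 - 2 * lam r R)) := by
  unfold muStar
  rw [lintegral_withDensity_eq_lintegral_mul _ dens_meas.ennreal_ofReal (by fun_prop)]
  exact potential hr hrR hx

lemma BB_cross (hr : 0 < r) (hrR : r < R) (ν : Measure E3) [IsProbabilityMeasure ν]
    (hν : ν (annulus 3 r R)ᶜ = 0) :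
    BB ν (muStar r R) = ENNReal.ofReal (2 / (R ^ 2 + r ^ 2 - 2 * lam r R)) := by
  unfold BB
  have h : ∀ᵐ x ∂ν, ∫⁻ y, (ENNReal.ofReal (‖x - y‖ ^ 2))⁻¹ ∂(muStar r R) =
      ENNReal.ofReal (2 / (R ^ 2 + r ^ 2 - 2 * lam r R)) := by
    have h1 : ∀ᵐ x ∂ν, x ∈ annulus 3 r R := by
      rw [ae_iff]
      exact hν
    filter_upwards [h1] with x hx
    exact potential_muStar hr hrR hx
  rw [lintegral_congr_ae h]
  simp

/-- **The equilibrium measure of the annulus in `ℝ³` for `s = 2`.** For `0 < r < R` the explicit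
function `dens r R` is nonnegative, the measure with this density is an equilibrium measure of
the Riesz energy `I_2` on the closed annulus, it is the only one, and the minimal energy is
`1 / (R² + r² - 2λ)`. -/
theorem result (r R : ℝ) (hr : 0 < r) (hrR : r < R) :
    (∀ x, 0 ≤ dens r R x) ∧
    IsEquilibrium 2 (annulus 3 r R) (muStar r R) ∧
    (∀ ν : Measure (EuclideanSpace ℝ (Fin 3)),
      IsEquilibrium 2 (annulus 3 r R) ν → ν = muStar r R) ∧
    rieszEnergy 2 (muStar r R) = ENNReal.ofReal (1 / (R ^ 2 + r ^ 2 - 2 * lam r R)) := by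
  have hD := mass_pos hr hrR
  have hprob := muStar_prob hr hrR
  set c : ℝ≥0∞ := ENNReal.ofReal (2 / (R ^ 2 + r ^ 2 - 2 * lam r R)) with hc
  have hctop : c ≠ ⊤ := ENNReal.ofReal_ne_top
  have hself : BB (muStar r R) (muStar r R) = c := BB_cross hr hrR _ muStar_carried
  have hid : ∀ (ν : Measure E3) [IsProbabilityMeasure ν], ν (annulus 3 r R)ᶜ = 0 →
      BB ν ν = c + DD ν (muStar r R) := by
    intro ν _ hν
    have h1 := BB_identity ν (muStar r R)
    rw [hself, BB_cross hr hrR ν hν] at h1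
    have h2 : BB ν ν + c = (c + DD ν (muStar r R)) + c := by
      rw [h1]; ring
    exact (ENNReal.add_left_inj hctop).1 h2
  have h2ne : (2⁻¹ : ℝ≥0∞) ≠ 0 := by simp
  have h2nt : (2⁻¹ : ℝ≥0∞) ≠ ⊤ := by simp
  refine ⟨?_, ⟨hprob, muStar_carried, ?_⟩, ?_, ?_⟩
  · intro x
    rw [dens_eq]
    exact prof_nonneg hr hrR _
  · intro ν hνp hν
    rw [energy_eq, energy_eq, hself, hid ν hν]
    gcongr
    exact le_self_add
  · intro ν hν
    have hνp := hν.prob
    have h1 := hν.min (muStar r R) hprob muStar_carried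
    rw [energy_eq, energy_eq, hself, hid ν hν.carried, ENNReal.mul_le_mul_iff_right h2ne h2nt] at h1
    have h3 : DD ν (muStar r R) = 0 := by
      have h4 : c + DD ν (muStar r R) ≤ c + 0 := by rw [add_zero]; exact h1
      have := (ENNReal.add_le_add_iff_left hctop).1 h4
      exact le_antisymm this bot_le
    exact eq_of_DD_eq_zero ν (muStar r R) h3
  · rw [energy_eq, hself, hc]
    have : (2⁻¹ : ℝ≥0∞) = ENNReal.ofReal (1 / 2) := by
      rw [one_div, ENNReal.ofReal_inv_of_pos (by norm_num)]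
      simp
    rw [this, ← ENNReal.ofReal_mul (by norm_num)]
    congr 1
    field_simp

end

end Pool.Agent.Results.MP_619363_an.AnnulusDimThree
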